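import Pool.Agent.Helper80.HD.GoalsC

/-!
# Project HD (MP_6af536_nt), packet KQ: the inequality for `y = f(x)`
-/

set_option autoImplicit false

open MvPolynomial Filter Topology

noncomputable section

namespace Pool.Agent.Helper67.HD

open Pool.Agent.Helper80.HD

/-! ### elementary part -/

section abs

variable {L : Type} [Field L] {σ : Type}

/-- the comparison at one absolute value -/
theorem step (hG : S_GNM) (ω : AbsoluteValue L ℝ) {A A' c : L} (hA : A ≠ 0) (hA' : A' ≠ 0)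
    (hc : c ≠ 0) {NX NY NX' SX SY : MvPolynomial σ L} (hX : NX ≠ 0) (hY : NY ≠ 0)
    (h1 : SX = C A * NX) (h2 : SY = C A' * NY) (h3 : NX' = C c * NY) (d : ℕ) {e : ℝ}
    (h : Real.log (gn ω NX') ≤ d * Real.log (gn ω NX) + e) :
    Real.log (gn ω SY) + Real.log (ω (c * A ^ d / A')) ≤ d * Real.log (gn ω SX) + e := by
  obtain ⟨g1, -, g3, -, -, -⟩ := hG.2.1 L σ ω
  have pX := (g1 NX hX).ne'
  have pY := (g1 NY hY).ne'
  have qA := (ω.pos hA).ne'
  have qA' := (ω.pos hA').ne'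
  have qc := (ω.pos hc).ne'
  rw [h3, g3, Real.log_mul qc pY] at h
  rw [h1, h2, g3, g3, Real.log_mul qA pX, Real.log_mul qA' pY, map_div₀, map_mul, map_pow,
    Real.log_div (mul_ne_zero qc (pow_ne_zero _ qA)) qA', Real.log_mul qc (pow_ne_zero _ qA),
    Real.log_pow]
  linarith

end abs

section loc

variable (K : Type) [Field K] [Algebra K ℂ]

theorem mem_FF {F : IntermediateField K ℂ} {L : IntermediateField K ℂ} {a : ℂ} (ha : a ∈ F) :
    a ∈ FF K L F := IntermediateField.subset_adjoin L _ ha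

theorem toE_coe {N : ℕ} {F : IntermediateField K ℂ} (L : IntermediateField K ℂ)
    {x : Fin (N + 1) → ℂ} (hx : ratioField K x ≤ F) (p j : Fin (N + 1)) :
    ((toE (FF K L F) (nrm x p) j : FF K L F) : ℂ) = nrm x p j := by
  have h : nrm x p j ∈ FF K L F := by
    refine mem_FF K (hx ?_)
    exact IntermediateField.subset_adjoin K _ ⟨j, p, rfl⟩
  unfold toE
  rw [dif_pos h]

theorem nrm_eq {N : ℕ} (x : Fin (N + 1) → ℂ) (p : Fin (N + 1)) :
    nrm x p = fun j => (x p)⁻¹ * x j := by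
  funext j
  unfold nrm
  rw [div_eq_inv_mul]

theorem nrm_self {N : ℕ} {x : Fin (N + 1) → ℂ} {p : Fin (N + 1)} (h : x p ≠ 0) : nrm x p p = 1 :=
  div_self h

/-- the element `c'` with `G(x) = c' y` -/
theorem image_data (hO : S_ORB) {N : ℕ} (f : RMap K N) {F : IntermediateField K ℂ}
    (L : IntermediateField K ℂ) {x y : Fin (N + 1) → ℂ} {p q : Fin (N + 1)}
    (hx : ratioField K x ≤ F) (hy : ratioField K y ≤ F) (hp : x p ≠ 0) (hq : y q ≠ 0)
    (hM : f.Mem x) (hI : f.IsImage x y) :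
    ∃ (l : Fin f.r) (c : FF K L F), c ≠ 0 ∧
      ∀ j, aeval (toE (FF K L F) (nrm x p)) (f.G l j) = c * toE (FF K L F) (nrm y q) j := by
  obtain ⟨hM', hI'⟩ := (hO K N f).2.1 x y (x p)⁻¹ (y q)⁻¹ (inv_ne_zero hp) (inv_ne_zero hq) hM hI
  rw [← nrm_eq] at hM' hI'
  rw [← nrm_eq] at hI'
  obtain ⟨l, j0, hlj⟩ := f.cover _ hM'.1 hM'.2
  obtain ⟨c, hc⟩ := hI'.2 l
  have hcoe : ∀ j, ((aeval (toE (FF K L F) (nrm x p)) (f.G l j) : FF K L F) : ℂ) =
      aeval (nrm x p) (f.G l j) := by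
    intro j
    have h1 := MvPolynomial.comp_aeval_apply (R := K) (f := toE (FF K L F) (nrm x p))
      (((FF K L F).val).restrictScalars K) (f.G l j)
    refine h1.trans ?_
    congr 2
    funext i
    exact toE_coe K L hx p i
  have hcq : ((aeval (toE (FF K L F) (nrm x p)) (f.G l q) : FF K L F) : ℂ) = c := by
    rw [hcoe, hc q, nrm_self hq, mul_one]
  have hc0 : c ≠ 0 := by
    intro h0
    apply hlj
    rw [hc j0, h0, zero_mul]
  refine ⟨l, aeval (toE (FF K L F) (nrm x p)) (f.G l q), ?_, fun j => ?_⟩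
  · intro h0
    rw [h0] at hcq
    exact hc0 hcq.symm
  · apply Subtype.ext
    rw [hcoe, hc j]
    show c * nrm y q j = ((aeval (toE (FF K L F) (nrm x p)) (f.G l q) : FF K L F) : ℂ) *
      ((toE (FF K L F) (nrm y q) j : FF K L F) : ℂ)
    rw [hcq, toE_coe K L hy]

end loc

/-- the local inequalities for one pair of points -/
structure Loc {K : Type} [Field K] [Algebra K ℂ] {k N : ℕ} (Γ : AbsoluteValue K ℝ → ℝ) (Γ' : ℝ)
    (u : Fin k × Fin (N + 1) → ℂ) (PX PY : MvPolynomial (Fin (k + 1) × Fin (N + 1)) K) (d δ : ℕ)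
    (κ : LK K u) : Prop where
  ind : AlgebraicIndependent K u
  κ0 : κ ≠ 0
  δ1 : 1 ≤ δ
  bx : bdeg 0 PX = δ
  by' : bdeg 0 PY = δ
  na : ∀ ω : AbsoluteValue (LK K u) ℝ, IsNonarchimedean ω →
    Real.log (gn ω (sub K (uL K u) PY)) + Real.log (ω κ) ≤
      d * Real.log (gn ω (sub K (uL K u) PX)) +
        δ * Real.log (Γ (ω.comp (algebraMap K (LK K u)).injective))
  ar : ∀ ι : LK K u →+* ℂ,
    Real.log (gn absC (map ι (sub K (uL K u) PY))) + Real.log (absC (ι κ)) ≤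
      d * Real.log (gn absC (map ι (sub K (uL K u) PX))) + δ * Γ'

theorem loc_of (hT : S_TOWER) (hL : S_LOCB) (hG : S_GNM) (hNF : S_NF) (hO : S_ORB)
    (K : Type) [Field K] [NumberField K] [Algebra K ℂ] (N : ℕ) (f : RMap K N) (k : ℕ) :
    ∃ (Γ : AbsoluteValue K ℝ → ℝ) (Γ' : ℝ), GoodGam K Γ ∧ 0 ≤ Γ' ∧
      ∀ (F : IntermediateField K ℂ) (z : Fin k → Fin (N + 1) → ℂ) (x y : Fin (N + 1) → ℂ),
        F.FG → Algebra.trdeg K F = k → (∀ i, Big K F (z i)) → Big K F x → Big K F y → f.Mem x →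
          f.IsImage x y → ∃ (u : Fin k × Fin (N + 1) → ℂ) (l : Fin f.r) (δ : ℕ) (κ : LK K u),
            Loc Γ Γ' u (cyc K F (Fin.cons x z : Fin (k + 1) → Fin (N + 1) → ℂ))
              (cyc K F (Fin.cons y z : Fin (k + 1) → Fin (N + 1) → ℂ)) (f.deg l) δ κ := by
  obtain ⟨Γ, Γ', hΓ, hΓ', hB⟩ := hL K N f
  refine ⟨Γ, Γ', hΓ, hΓ', fun F z x y hF htr hz hx hy hM hI => ?_⟩
  obtain ⟨u, hu, hfd, hTw⟩ := hT K F k N z hF htr hz
  have := hfd
  obtain ⟨p, hp⟩ := Function.ne_iff.mp hx.1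
  obtain ⟨q, hq⟩ := Function.ne_iff.mp hy.1
  obtain ⟨⟨A, hA, hSx⟩, hbx⟩ := hTw x p hx hp
  obtain ⟨⟨A', hA', hSy⟩, hby⟩ := hTw y q hy hq
  obtain ⟨l, c, hc, hcj⟩ := image_data K hO f (LK K u) hx.2.1 hy.2.1 hp hq hM hI
  have hX0 : toE (FF K (LK K u) F) (nrm x p) ≠ 0 := by
    intro h0
    have h1 := toE_coe K (LK K u) hx.2.1 p p
    rw [h0, nrm_self hp] at h1
    exact zero_ne_one h1
  have hYq : toE (FF K (LK K u) F) (nrm y q) q = 1 := by
    apply Subtype.ext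
    rw [toE_coe K (LK K u) hy.2.1, nrm_self hq]
    rfl
  have hY0 : toE (FF K (LK K u) F) (nrm y q) ≠ 0 := by
    intro h0
    rw [h0] at hYq
    exact zero_ne_one hYq
  have hX' : (fun j => aeval (toE (FF K (LK K u) F) (nrm x p)) (f.G l j)) =
      fun j => c * toE (FF K (LK K u) F) (nrm y q) j := funext hcj
  have hX'0 : (fun j => aeval (toE (FF K (LK K u) F) (nrm x p)) (f.G l j)) ≠ 0 := by
    intro h0
    rw [hX'] at h0
    have h1 := congrFun h0 q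
    simp only [hYq, mul_one] at h1
    exact hc h1
  obtain ⟨-, -, -, hN4, hN5y⟩ := hNF (LK K u) (FF K (LK K u) F) N
    (toE (FF K (LK K u) F) (nrm y q))
  obtain ⟨-, -, -, -, hN5x⟩ := hNF (LK K u) (FF K (LK K u) F) N
    (toE (FF K (LK K u) F) (nrm x p))
  have hn : Algebra.norm (LK K u) c ≠ 0 := by
    rw [Ne, Algebra.norm_eq_zero_iff]
    exact hc
  obtain ⟨b1, b2⟩ := hB (LK K u) (FF K (LK K u) F) (toE (FF K (LK K u) F) (nrm x p))
    (fun j => aeval (toE (FF K (LK K u) F) (nrm x p)) (f.G l j)) l (fun j => rfl) hX'0 hX0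
  have hNX' : normForm (LK K u) (FF K (LK K u) F)
      (fun j => aeval (toE (FF K (LK K u) F) (nrm x p)) (f.G l j)) =
      C (Algebra.norm (LK K u) c) * normForm (LK K u) (FF K (LK K u) F)
        (toE (FF K (LK K u) F) (nrm y q)) := by
    rw [hX']
    exact hN4 c
  refine ⟨u, l, Module.finrank (LK K u) (FF K (LK K u) F),
    Algebra.norm (LK K u) c * A ^ (f.deg l) / A', hu,
    div_ne_zero (mul_ne_zero hn (pow_ne_zero _ hA)) hA', Module.finrank_pos, hbx, hby, ?_, ?_⟩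
  · intro ω hω
    exact step hG ω hA hA' hn (hN5x hX0) (hN5y hY0) hSx hSy hNX' _ (b1 ω hω)
  · intro ι
    have hg : ∀ P : MvPolynomial (Fin (N + 1)) (LK K u),
        gn absC (map ι P) = gn (absC.comp ι.injective) P :=
      (hG.2.1 (LK K u) (Fin (N + 1)) (absC.comp ι.injective)).2.2.2.2.2 ℂ ι absC fun _ => rfl
    have h1 := b2 ι
    rw [hg, hg] at h1
    rw [hg, hg]
    exact step hG (absC.comp ι.injective) hA hA' hn (hN5x hX0) (hN5y hY0) hSx hSy hNX' _ h1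

/-! ### global part -/

section glob

variable {K : Type} [Field K] [Algebra K ℂ] {k N : ℕ} {Γ : AbsoluteValue K ℝ → ℝ}
  {Γ' : ℝ} {u : Fin k × Fin (N + 1) → ℂ} {PX PY : MvPolynomial (Fin (k + 1) × Fin (N + 1)) K}
  {d δ : ℕ} {κ : LK K u}

/-- `κ` is a polynomial -/
theorem Loc.poly (h : Loc Γ Γ' u PX PY d δ κ) (hC : S_CPI)
    (hΓ : ∀ v : AbsoluteValue K ℝ, (∀ c, c ≠ 0 → v c = 1) → Γ v = 1)
    (hx : ∀ ω ∈ PiAbs K u, gn ω (sub K (uL K u) PX) = 1)
    (hy : ∀ ω ∈ PiAbs K u, gn ω (sub K (uL K u) PY) = 1) :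
    ∃ R : MvPolynomial (Fin k × Fin (N + 1)) K, R ≠ 0 ∧ κ = aeval (uL K u) R := by
  obtain ⟨R, hR⟩ := (hC K k N u h.ind κ h.κ0).2 fun ω hω => by
    have h1 := h.na ω hω.1
    rw [hx ω hω, hy ω hω, hΓ _ hω.2.1, Real.log_one, mul_zero, mul_zero, add_zero, zero_add] at h1
    exact (Real.log_nonpos_iff (ω.nonneg κ)).mp h1
  refine ⟨R, ?_, hR⟩
  rintro rfl
  rw [map_zero] at hR
  exact h.κ0 hR

/-- the value of `κ` -/
theorem val_κ (hS : S_SUP) (hG : S_GNM) {R : MvPolynomial (Fin k × Fin (N + 1)) K}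
    (hR : κ = aeval (uL K u) R) (ω : AbsoluteValue (LK K u) ℝ) :
    gn ω (sub K (uL K u) (up K R)) = ω κ := by
  rw [(hS K k N u).1 R, ← hR, (hG.2.1 (LK K u) (Fin (N + 1)) ω).2.1]

/-- the degree inequality -/
theorem Loc.deg (h : Loc Γ Γ' u PX PY d δ κ) (hD : S_CDE) (hS : S_SUP) (hG : S_GNM)
    (hΓ : ∀ v : AbsoluteValue K ℝ, (∀ c, c ≠ 0 → v c = 1) → Γ v = 1) (hPX : PX ≠ 0) (hPY : PY ≠ 0)
    {R : MvPolynomial (Fin k × Fin (N + 1)) K} (hR0 : R ≠ 0) (hR : κ = aeval (uL K u) R)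
    (l : Fin k) : bdeg l.succ PY + bdeg l R ≤ d * bdeg l.succ PX := by
  obtain ⟨ω, hω, htr, hd⟩ := hD K k N u h.ind l
  have h1 := h.na ω hω
  rw [← val_κ hS hG hR, hd PY hPY, hd PX hPX, hd (up K R) ((hS K k N u).2.2.2.2 R hR0),
    Real.log_exp, Real.log_exp, Real.log_exp, hΓ _ htr, Real.log_one, mul_zero, add_zero,
    (hS K k N u).2.1 R l] at h1
  exact_mod_cast h1

/-- finite places -/
theorem Loc.fin (h : Loc Γ Γ' u PX PY d δ κ) (hC : S_CGA) (hS : S_SUP) (hG : S_GNM)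
    {R : MvPolynomial (Fin k × Fin (N + 1)) K} (hR : κ = aeval (uL K u) R)
    (v : AbsoluteValue K ℝ) (hv : IsNonarchimedean v) :
    Real.log (gn v PY) + Real.log (gn v (up K R)) ≤ d * Real.log (gn v PX) + δ * Real.log (Γ v) := by
  obtain ⟨ω, hω, hext, hg⟩ := hC K v k N u hv h.ind
  have h1 := h.na ω hω
  have h2 : ω.comp (algebraMap K (LK K u)).injective = v := by
    ext c
    exact hext c
  rw [← val_κ hS hG hR, hg, hg, hg, h2] at h1
  exact h1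

/-- infinite places -/
theorem Loc.inf [NumberField K] (h : Loc Γ Γ' u PX PY d δ κ) {c₀ : ℝ}
    (hA : ∀ (K : Type) [Field K] [NumberField K] [Algebra K ℂ]
      (u : Fin k × Fin (N + 1) → ℂ), AlgebraicIndependent K u → ∀ (σ : K →+* ℂ)
      (P : Fin 3 → MvPolynomial (Fin (k + 1) × Fin (N + 1)) K) (D : ℕ), (∀ s, P s ≠ 0) →
      (∀ s, (P s).totalDegree ≤ D) → ∃ ι : LK K u →+* ℂ,
        (∀ x : K, ι (algebraMap K (LK K u) x) = σ x) ∧
        ∀ s, |Real.log (gn absC (map ι (sub K (uL K u) (P s)))) -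
          Real.log (gn absC (map σ (P s)))| ≤ c₀ * (1 + (D : ℝ)))
    (hS : S_SUP) (hG : S_GNM) (hPX : PX ≠ 0) (hPY : PY ≠ 0)
    {R : MvPolynomial (Fin k × Fin (N + 1)) K} (hR0 : R ≠ 0) (hR : κ = aeval (uL K u) R)
    (v : AbsoluteValue K ℝ) (σ : K →+* ℂ) (hv : ∀ c, v c = ‖σ c‖) (D : ℕ)
    (hDX : PX.totalDegree ≤ D) (hDY : PY.totalDegree ≤ D) (hDR : (up K R).totalDegree ≤ D) :
    Real.log (gn v PY) + Real.log (gn v (up K R)) ≤
      d * Real.log (gn v PX) + (δ * Γ' + (d + 2) * (c₀ * (1 + (D : ℝ)))) := by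
  have hR1 : up K R ≠ 0 := (hS K k N u).2.2.2.2 R hR0
  obtain ⟨ι, hι, hest⟩ := hA K u h.ind σ ![PX, PY, up K R] D
    (fun s => by fin_cases s <;> assumption) (fun s => by fin_cases s <;> assumption)
  have e0 := hest 0
  have e1 := hest 1
  have e2 := hest 2
  have hgv : ∀ P : MvPolynomial (Fin (k + 1) × Fin (N + 1)) K, gn absC (map σ P) = gn v P :=
    (hG.2.1 K (Fin (k + 1) × Fin (N + 1)) v).2.2.2.2.2 ℂ σ absC fun c => (hv c).symm
  have h1 := h.ar ι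
  have h2 : gn absC (map ι (sub K (uL K u) (up K R))) = absC (ι κ) := by
    rw [(hG.2.1 (LK K u) (Fin (N + 1)) (absC.comp ι.injective)).2.2.2.2.2 ℂ ι absC (fun _ => rfl),
      val_κ hS hG hR]
    rfl
  rw [← h2] at h1
  simp only [Matrix.cons_val_zero, Matrix.cons_val_one, Matrix.cons_val] at e0 e1 e2
  rw [hgv] at e0 e1 e2
  have f0 := (abs_le.mp e0).2
  have f1 := (abs_le.mp e1).1
  have f2 := (abs_le.mp e2).1
  have hd : (0 : ℝ) ≤ d := Nat.cast_nonneg d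
  have f3 := mul_le_mul_of_nonneg_left f0 hd
  nlinarith [f3, f1, f2, h1]

end glob

/-! ### sum over the places -/

section places

open Height

variable {K : Type} [Field K] [NumberField K]

theorem fs_log {σ : Type} (hL : S_LHD) {P : MvPolynomial σ K} (hP : P ≠ 0) :
    Function.HasFiniteSupport fun v : AdmissibleAbsValues.nonarchAbsVal (K := K) =>
      Real.log (gn v.1 P) := by
  refine ((hL K).1 σ P hP).2.subset fun v hv => ?_
  rw [Function.mem_support] at hv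
  intro h1
  apply hv
  have h2 : gn v.1 P = 1 := h1
  rw [h2, Real.log_one]

theorem fs_gam {Γ : AbsoluteValue K ℝ → ℝ} (hΓ : GoodGam K Γ) :
    Function.HasFiniteSupport fun v : AdmissibleAbsValues.nonarchAbsVal (K := K) =>
      Real.log (Γ v.1) := by
  have h1 := hΓ.2.2
  refine Set.Finite.subset (h1.preimage (Subtype.val_injective.injOn)) fun v hv => ?_
  rw [Function.mem_support] at hv
  refine ⟨v.2, fun h2 => hv ?_⟩
  rw [h2, Real.log_one]

theorem sum_places {σ : Type} (hL : S_LHD) {Γ : AbsoluteValue K ℝ → ℝ} (hΓ : GoodGam K Γ)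
    {PX PY U : MvPolynomial σ K} (hX : PX ≠ 0) (hY : PY ≠ 0) (hU : U ≠ 0) {d δ : ℕ} {e : ℝ}
    (hna : ∀ v ∈ AdmissibleAbsValues.nonarchAbsVal (K := K),
      Real.log (gn v PY) + Real.log (gn v U) ≤ d * Real.log (gn v PX) + δ * Real.log (Γ v))
    (har : ∀ v ∈ AdmissibleAbsValues.archAbsVal (K := K),
      Real.log (gn v PY) + Real.log (gn v U) ≤ d * Real.log (gn v PX) + e) :
    lh PY + lh U ≤ d * lh PX + (Multiset.card (AdmissibleAbsValues.archAbsVal (K := K)) * e +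
      δ * ∑ᶠ v : AdmissibleAbsValues.nonarchAbsVal (K := K), Real.log (Γ v.1)) := by
  have a1 := ((hL K).1 σ PX hX).1
  have a2 := ((hL K).1 σ PY hY).1
  have a3 := ((hL K).1 σ U hU).1
  have s1 := fs_log hL hX
  have s2 := fs_log hL hY
  have s3 := fs_log hL hU
  have s4 := fs_gam hΓ
  have f1 : (∑ᶠ v : AdmissibleAbsValues.nonarchAbsVal (K := K), Real.log (gn v.1 PY)) +
      ∑ᶠ v : AdmissibleAbsValues.nonarchAbsVal (K := K), Real.log (gn v.1 U) ≤
      d * (∑ᶠ v : AdmissibleAbsValues.nonarchAbsVal (K := K), Real.log (gn v.1 PX)) +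
      δ * ∑ᶠ v : AdmissibleAbsValues.nonarchAbsVal (K := K), Real.log (Γ v.1) := by
    rw [mul_finsum, mul_finsum, ← finsum_add_distrib s2 s3, ← finsum_add_distrib]
    · refine finsum_le_finsum' ?_ ?_ fun v => hna v.1 v.2
      · exact s2.add s3
      · exact (Function.HasFiniteSupport.mul_right _ s1).add
          (Function.HasFiniteSupport.mul_right _ s4)
    · exact Function.HasFiniteSupport.mul_right _ s1
    · exact Function.HasFiniteSupport.mul_right _ s4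
  have f2 : ((AdmissibleAbsValues.archAbsVal (K := K)).map fun v => Real.log (gn v PY)).sum +
      ((AdmissibleAbsValues.archAbsVal (K := K)).map fun v => Real.log (gn v U)).sum ≤
      d * ((AdmissibleAbsValues.archAbsVal (K := K)).map fun v => Real.log (gn v PX)).sum +
        Multiset.card (AdmissibleAbsValues.archAbsVal (K := K)) * e := by
    rw [← Multiset.sum_map_add, ← Multiset.sum_map_mul_left, ← nsmul_eq_mul (Multiset.card _) e,
      ← Multiset.sum_replicate, ← Multiset.map_const', ← Multiset.sum_map_add]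
    exact Multiset.sum_map_le_sum_map _ _ har
  rw [a1, a2, a3]
  linarith

end places

/-! ### assembly -/

section fin

open Height

theorem big_cons {K : Type} [Field K] [Algebra K ℂ] {k N : ℕ} {F : IntermediateField K ℂ}
    {z : Fin k → Fin (N + 1) → ℂ} {x : Fin (N + 1) → ℂ} (hz : ∀ i, Big K F (z i))
    (hx : Big K F x) (i : Fin (k + 1)) :
    Big K F ((Fin.cons x z : Fin (k + 1) → Fin (N + 1) → ℂ) i) :=
  Fin.cases hx hz i

/-- facts on `cyc` -/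
theorem cyc_facts (hR : S_RES) {K : Type} [Field K] [NumberField K] [Algebra K ℂ] {k N : ℕ}
    {F : IntermediateField K ℂ} {z : Fin k → Fin (N + 1) → ℂ} {x : Fin (N + 1) → ℂ}
    (hF : F.FG) (ht : Algebra.trdeg K F = k) (hz : ∀ i, Big K F (z i)) (hx : Big K F x)
    (u : Fin k × Fin (N + 1) → ℂ) :
    cyc K F (Fin.cons x z : Fin (k + 1) → Fin (N + 1) → ℂ) ≠ 0 ∧
      ∀ ω ∈ PiAbs K u, gn ω (sub K (uL K u)
        (cyc K F (Fin.cons x z : Fin (k + 1) → Fin (N + 1) → ℂ))) = 1 := by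
  obtain ⟨-, hirr, hdeg⟩ := hR K F k N (Fin.cons x z) hF ht (big_cons hz hx)
  obtain ⟨p, hp⟩ := Function.ne_iff.mp hx.1
  refine ⟨pow_ne_zero _ hirr.ne_zero, fun ω hω => ?_⟩
  exact hω.2.2 _ _ hirr ⟨p, hdeg 0 p hp⟩

theorem kq (hT : S_TOWER) (hL : S_LOCB) (hCGA : S_CGA) (hCPI : S_CPI) (hCDE : S_CDE)
    (hARC : S_ARC) (hLHD : S_LHD) (hG : S_GNM) (hTDG : S_TDG) (hSUP : S_SUP) (hRES : S_RES)
    (hO : S_ORB) (hNF : S_NF) : S_KQ := by
  intro K _ _ _ N f k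
  obtain ⟨Γ, Γ', hΓ, hΓ', hloc⟩ := loc_of hT hL hG hNF hO K N f k
  obtain ⟨c₀, hc₀, hA⟩ := hARC k N 3
  obtain ⟨Bn, hBn⟩ : ∃ Bn : ℕ, Bn = 1 + ∑ l, f.deg l := ⟨_, rfl⟩
  have hdB : ∀ l, f.deg l ≤ Bn := fun l => by
    have h1 := Finset.single_le_sum (f := f.deg) (fun i _ => Nat.zero_le _) (Finset.mem_univ l)
    omega
  obtain ⟨m, hm⟩ : ∃ m : ℝ, m = Multiset.card (AdmissibleAbsValues.archAbsVal (K := K)) := ⟨_, rfl⟩
  have hm0 : 0 ≤ m := by
    rw [hm]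
    exact Nat.cast_nonneg _
  obtain ⟨G, hGd⟩ : ∃ G : ℝ, G = ∑ᶠ v : AdmissibleAbsValues.nonarchAbsVal (K := K),
    Real.log (Γ v.1) := ⟨_, rfl⟩
  have hG0 : 0 ≤ G := by
    rw [hGd]
    exact finsum_nonneg fun v => Real.log_nonneg (hΓ.1 v.1)
  refine ⟨Bn, m * (Γ' + (Bn + 2) * (c₀ * (2 + Bn))) + G, ?_, ?_, ?_⟩
  · have : 1 ≤ Bn := by omega
    exact_mod_cast this
  · have h1 : (0 : ℝ) ≤ Bn := Nat.cast_nonneg _
    positivity
  intro F z x y hF ht hz hx hy hM hI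
  obtain ⟨u, l₀, δ, κ, h⟩ := hloc F z x y hF ht hz hx hy hM hI
  obtain ⟨hX0, hXp⟩ := cyc_facts hRES hF ht hz hx u
  obtain ⟨hY0, hYp⟩ := cyc_facts hRES hF ht hz hy u
  obtain ⟨PX, hPX⟩ : ∃ P, P = cyc K F (Fin.cons x z : Fin (k + 1) → Fin (N + 1) → ℂ) := ⟨_, rfl⟩
  obtain ⟨PY, hPY⟩ : ∃ P, P = cyc K F (Fin.cons y z : Fin (k + 1) → Fin (N + 1) → ℂ) := ⟨_, rfl⟩
  rw [← hPX] at h hX0 hXp ⊢
  rw [← hPY] at h hY0 hYp ⊢
  obtain ⟨R, hR0, hR⟩ := h.poly hCPI hΓ.2.1 hXp hYp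
  have hU0 : up K R ≠ 0 := (hSUP K k N u).2.2.2.2 R hR0
  have hdeg := fun l => h.deg hCDE hSUP hG hΓ.2.1 hX0 hY0 hR0 hR l
  have hd := hdB l₀
  obtain ⟨d, hdd⟩ : ∃ d, d = f.deg l₀ := ⟨_, rfl⟩
  rw [← hdd] at hd hdeg h
  obtain ⟨S, hS⟩ : ∃ S : ℕ, S = bdeg 0 PX + ∑ l : Fin k, bdeg l.succ PX +
    ∑ l : Fin k, bdeg l.succ PY := ⟨_, rfl⟩
  have hδ : δ ≤ S := by
    rw [hS, h.bx]
    omega
  have hS1 : 1 ≤ S := h.δ1.trans hδ
  have hDX : PX.totalDegree ≤ S := by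
    refine ((hTDG K (k + 1) N PX PX hX0 hX0).2.2.2).trans ?_
    rw [Fin.sum_univ_succ, hS]
    omega
  have hDY : PY.totalDegree ≤ S := by
    refine ((hTDG K (k + 1) N PY PY hY0 hY0).2.2.2).trans ?_
    rw [Fin.sum_univ_succ, h.by', hS, h.bx]
    omega
  have hDR : (up K R).totalDegree ≤ Bn * S := by
    refine ((hTDG K (k + 1) N (up K R) (up K R) hU0 hU0).2.2.2).trans ?_
    rw [Fin.sum_univ_succ, (hSUP K k N u).2.2.1 R, zero_add]
    calc (∑ l : Fin k, bdeg l.succ (up K R)) ≤ ∑ l : Fin k, Bn * bdeg l.succ PX := by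
          refine Finset.sum_le_sum fun l _ => ?_
          rw [(hSUP K k N u).2.1 R l]
          have h1 := hdeg l
          have h2 : d * bdeg l.succ PX ≤ Bn * bdeg l.succ PX := Nat.mul_le_mul_right _ hd
          omega
      _ = Bn * ∑ l : Fin k, bdeg l.succ PX := by rw [Finset.mul_sum]
      _ ≤ Bn * S := Nat.mul_le_mul_left _ (by omega)
  have hSum := sum_places hLHD hΓ hX0 hY0 hU0
    (fun v hv => h.fin hCGA hSUP hG hR v ((hLHD K).2.2.2.1 v hv))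
    (fun v hv => by
      obtain ⟨σ, hσ⟩ := (hLHD K).2.1 v hv
      exact h.inf hA hSUP hG hX0 hY0 hR0 hR v σ hσ ((1 + Bn) * S)
        (hDX.trans (by nlinarith)) (hDY.trans (by nlinarith)) (hDR.trans (by nlinarith)))
  rw [← hm, ← hGd] at hSum
  have hlU := (hLHD K).2.2.2.2 _ (up K R)
  have hlX := (hLHD K).2.2.2.2 _ PX
  have hdR : (d : ℝ) ≤ Bn := by exact_mod_cast hd
  have hδR : (δ : ℝ) ≤ S := by exact_mod_cast hδ
  have hS1R : (1 : ℝ) ≤ S := by exact_mod_cast hS1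
  have hBR : (0 : ℝ) ≤ Bn := Nat.cast_nonneg _
  have hd0 : (0 : ℝ) ≤ d := Nat.cast_nonneg _
  refine ⟨?_, fun l => ?_⟩
  · have hSR : ((bdeg 0 PX : ℝ) + ∑ l : Fin k, (bdeg l.succ PX : ℝ) +
        ∑ l : Fin k, (bdeg l.succ PY : ℝ)) = S := by
      rw [hS]
      push_cast
      ring
    rw [hSR]
    have e1 : (δ : ℝ) * Γ' ≤ S * Γ' := mul_le_mul_of_nonneg_right hδR hΓ'
    have e2 : (δ : ℝ) * G ≤ S * G := mul_le_mul_of_nonneg_right hδR hG0
    have e3 : (d : ℝ) * lh PX ≤ Bn * lh PX := mul_le_mul_of_nonneg_right hdR hlX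
    have e4 : (1 : ℝ) + (((1 + Bn) * S : ℕ) : ℝ) ≤ (2 + Bn) * S := by
      push_cast
      nlinarith
    have e5 : ((d : ℝ) + 2) * (c₀ * (1 + (((1 + Bn) * S : ℕ) : ℝ))) ≤
        (Bn + 2) * (c₀ * ((2 + Bn) * S)) :=
      mul_le_mul (by linarith) (mul_le_mul_of_nonneg_left e4 hc₀) (by positivity) (by positivity)
    have e6 : m * ((δ : ℝ) * Γ' + (d + 2) * (c₀ * (1 + (((1 + Bn) * S : ℕ) : ℝ)))) ≤
        m * (S * Γ' + (Bn + 2) * (c₀ * ((2 + Bn) * S))) :=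
      mul_le_mul_of_nonneg_left (by linarith) hm0
    have e7 : (m * (Γ' + (Bn + 2) * (c₀ * (2 + Bn))) + G) * (S : ℝ) =
        m * (S * Γ' + (Bn + 2) * (c₀ * ((2 + Bn) * S))) + S * G := by ring
    rw [e7]
    linarith
  · have h1 : bdeg l.succ PY ≤ Bn * bdeg l.succ PX := by
      have h2 := hdeg l
      have h3 : d * bdeg l.succ PX ≤ Bn * bdeg l.succ PX := Nat.mul_le_mul_right _ hd
      omega
    exact_mod_cast h1

end fin

end Pool.Agent.Helper67.HD
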